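import Pool.Agent.H.MP_00b752_lc.E

set_option autoImplicit false

namespace Pool.Agent.Results.MP_00b752_lc.Poly

open Pool.Agent.Lib.CX Pool.Agent.H.MP_00b752_lc

theorem result : ∃ f : In → Option (List (ℕ × ℕ)), PT f ∧ ∀ I : In, (∀ x ∈ I, 1 ≤ x.1) →
    (∀ M, f I = some M → SS I M) ∧ (f I = none → ∀ M, ¬ SS I M) :=
  main

end Pool.Agent.Results.MP_00b752_lc.Poly
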